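import Mathlib
import Pool.Agent.W732.Main
import Pool.Agent.W732.Dim2

set_option autoImplicit false

/-!
# The overshear group is meagre

Let `X` be an irreducible affine algebraic variety in `ℂ^m` of positive dimension (smooth or not)
with the algebraic overshear density property. The group generated by the time maps of all
holomorphic overshear vector fields `f Θ`, with `Θ` any locally nilpotent derivation, is meagre in
the connected component of the identity of the group of holomorphic automorphisms of `X` with the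
compact-open topology.
-/

open MvPolynomial Set

namespace Pool.Agent.Results.MP_4d3b38_an.OvershearMeagre

variable {m : ℕ}

/-- The coordinate ring `ℂ[X] = ℂ[x_1, ..., x_m] / I`. -/
abbrev CoordRing (I : Ideal (MvPolynomial (Fin m) ℂ)) := MvPolynomial (Fin m) ℂ ⧸ I

/-- The variety `X`: the zero set in `ℂ^m` of the ideal `I`. -/
def Variety (I : Ideal (MvPolynomial (Fin m) ℂ)) : Set (Fin m → ℂ) :=
  {x | ∀ P ∈ I, eval x P = 0}

variable {I : Ideal (MvPolynomial (Fin m) ℂ)}

lemma value_aux (x : Variety I) (P : MvPolynomial (Fin m) ℂ) (hP : P ∈ I) :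
    aeval x.1 P = 0 := by
  rw [MvPolynomial.aeval_eq_eval]
  exact x.2 P hP

/-- The value of a regular function at a point of `X`: the class of the polynomial `P` is sent to
the value of `P` at the point. -/
noncomputable def value (x : Variety I) : CoordRing I →ₐ[ℂ] ℂ :=
  Ideal.Quotient.liftₐ I (aeval x.1) (value_aux x)

/-- Locally nilpotent derivations of the coordinate ring. -/
def IsLND (Θ : Derivation ℂ (CoordRing I) (CoordRing I)) : Prop :=
  ∀ g : CoordRing I, ∃ k : ℕ, (⇑Θ)^[k] g = 0

variable (I) in
/-- The algebraic overshear density property: the fields `f Θ`, with `Θ` a locally nilpotent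
derivation, `f` a regular function and `Θ(Θ(f)) = 0`, generate the Lie algebra of all
derivations of the coordinate ring. -/
def OvershearDensity : Prop :=
  LieSubalgebra.lieSpan ℂ (Derivation ℂ (CoordRing I) (CoordRing I))
    {V | ∃ Θ : Derivation ℂ (CoordRing I) (CoordRing I), IsLND Θ ∧
        ∃ f : CoordRing I, Θ (Θ f) = 0 ∧ V = f • Θ} = ⊤

/-- The vector in `ℂ^m` of the algebraic vector field `Θ` at the point `x`: its `j`-th coordinate
is the value at `x` of `Θ(x_j)`. -/
noncomputable def vectorAt (Θ : Derivation ℂ (CoordRing I) (CoordRing I)) (x : Variety I) :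
    Fin m → ℂ :=
  fun j => value x (Θ (Ideal.Quotient.mk I (X j)))

/-- Holomorphic self-maps of `X`: restrictions of entire maps of `ℂ^m`. -/
def IsHolomorphic (φ : Variety I → Variety I) : Prop :=
  ∃ F : (Fin m → ℂ) → (Fin m → ℂ), AnalyticOnNhd ℂ F univ ∧
    ∀ x : Variety I, F x.1 = (φ x).1

/-- `φ` and its inverse are holomorphic. -/
def IsBiholomorphic (φ : Variety I ≃ₜ Variety I) : Prop :=
  IsHolomorphic φ ∧ IsHolomorphic φ.symm

lemma biholomorphic_mul {φ ψ : Variety I ≃ₜ Variety I} (h : IsBiholomorphic φ)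
    (h' : IsBiholomorphic ψ) : IsBiholomorphic (φ * ψ) := by
  obtain ⟨⟨F, hF, hFφ⟩, ⟨F', hF', hFφ'⟩⟩ := h
  obtain ⟨⟨G, hG, hGψ⟩, ⟨G', hG', hGψ'⟩⟩ := h'
  refine ⟨⟨fun x => F (G x), fun x _ => (hF (G x) trivial).comp (hG x trivial), fun x => ?_⟩,
    ⟨fun x => G' (F' x), fun x _ => (hG' (F' x) trivial).comp (hF' x trivial), fun x => ?_⟩⟩
  · change F (G x.1) = (φ (ψ x)).1
    rw [hGψ, hFφ]
  · change G' (F' x.1) = (ψ.symm (φ.symm x)).1
    rw [hFφ', hGψ']

lemma biholomorphic_one : IsBiholomorphic (1 : Variety I ≃ₜ Variety I) :=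
  ⟨⟨fun x => x, fun _ _ => analyticAt_id, fun _ => rfl⟩,
    ⟨fun x => x, fun _ _ => analyticAt_id, fun _ => rfl⟩⟩

lemma biholomorphic_inv {φ : Variety I ≃ₜ Variety I} (h : IsBiholomorphic φ) :
    IsBiholomorphic φ⁻¹ := ⟨h.2, h.1⟩

variable (I) in
/-- The holomorphic automorphisms of `X`, as a subgroup of the homeomorphisms of `X`. -/
def autSubgroup : Subgroup (Variety I ≃ₜ Variety I) where
  carrier := {φ | IsBiholomorphic φ}
  mul_mem' := biholomorphic_mul
  one_mem' := biholomorphic_one
  inv_mem' := biholomorphic_inv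

variable (I) in
/-- The group of holomorphic automorphisms of `X`. -/
def AutHol : Type := autSubgroup I

/-- The group structure: composition of maps. -/
noncomputable instance : Group (AutHol I) := (autSubgroup I).toGroup

/-- The underlying homeomorphism of a holomorphic automorphism. -/
def AutHol.toHomeo (φ : AutHol I) : Variety I ≃ₜ Variety I := Subtype.val φ

/-- The compact-open topology on the group of holomorphic automorphisms, induced from the space
of continuous self-maps of `X`. -/
noncomputable instance : TopologicalSpace (AutHol I) :=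
  TopologicalSpace.induced (fun φ => (φ.toHomeo : C(Variety I, Variety I)))
    ContinuousMap.compactOpen

/-- `φ` is a time map of a holomorphic overshear vector field: there are a locally nilpotent
derivation `Θ`, a holomorphic function on `X`, given by an entire function `f`, with
`Θ(f) = g` and `Θ(g) = 0` on `X`, and a time `t`, such that every point `x` of `X` lies on an
integral curve `γ : ℂ → X` of the field `f Θ` with `γ(0) = x` and `γ(t) = φ(x)`. -/
def IsOvershearTimeMap (φ : Variety I → Variety I) : Prop :=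
  ∃ (Θ : Derivation ℂ (CoordRing I) (CoordRing I)) (f g : (Fin m → ℂ) → ℂ) (t : ℂ),
    IsLND Θ ∧ AnalyticOnNhd ℂ f univ ∧ AnalyticOnNhd ℂ g univ ∧
    (∀ x : Variety I, fderiv ℂ f x.1 (vectorAt Θ x) = g x.1) ∧
    (∀ x : Variety I, fderiv ℂ g x.1 (vectorAt Θ x) = 0) ∧
    ∀ x : Variety I, ∃ γ : ℂ → Variety I, γ 0 = x ∧ γ t = φ x ∧
      ∀ s : ℂ, HasDerivAt (fun s => (γ s).1) (f (γ s).1 • vectorAt Θ (γ s)) s

variable (I) in
/-- The group generated by the time maps of all holomorphic overshear vector fields. -/
noncomputable def OvershearGroup : Subgroup (AutHol I) :=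
  Subgroup.closure {φ | IsOvershearTimeMap φ.toHomeo}

variable (I) in
/-- The connected component of the identity of the group of holomorphic automorphisms. -/
def AutOne : Set (AutHol I) := connectedComponent 1

/-- For every irreducible affine variety `X` of positive dimension with the algebraic overshear
density property, the group generated by the time maps of all holomorphic overshear vector fields
is meagre in the connected component of the identity of the group of holomorphic automorphisms of
`X` with the compact-open topology. -/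
theorem result (I : Ideal (MvPolynomial (Fin m) ℂ)) (hI : I.IsPrime) (hdim : ¬ I.IsMaximal)
    (hX : OvershearDensity I) :
    IsMeagre {φ : AutOne I | (φ : AutHol I) ∈ OvershearGroup I} := by
  have hos : LieSubalgebra.lieSpan ℂ (Derivation ℂ (Pool.Agent.W732.OS.Ax I)
      (Pool.Agent.W732.OS.Ax I))
      {V | ∃ Θ : Derivation ℂ (Pool.Agent.W732.OS.Ax I) (Pool.Agent.W732.OS.Ax I),
        (∀ g : Pool.Agent.W732.OS.Ax I, ∃ k : ℕ, (⇑Θ)^[k] g = 0) ∧
        ∃ f : Pool.Agent.W732.OS.Ax I, Θ (Θ f) = 0 ∧ V = f • Θ} = ⊤ := hX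
  have hspan := Pool.Agent.W732.OS.span_lnd (Pool.Agent.W732.OS.adjoin_xx I) hos
  obtain ⟨n, Θ, hΘ, hli, hsp⟩ := Pool.Agent.W732.OS.exists_basis I hspan
  obtain ⟨G, hG, B, C, e, he, hB, hC⟩ := Pool.Agent.W732.OS.exists_split I hli hsp
  have hn : 2 ≤ n := Pool.Agent.W732.OS.two_le I hdim hos hΘ hli hsp
  obtain ⟨Λ1, Λ2, y, i0, a0, h1, h2, h3, h4, h5, h6, h7, h8⟩ :=
    Pool.Agent.W732.OS.exists_data I hΘ he hB hn
  let 𝔉 : Pool.Agent.W732.OS.Frame I :=
    { n := n, Θ := Θ, lnd := hΘ, G := G, hG := hG, B := B, C := C, e := e, e_ne := he,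
      split1 := hB, split2 := hC }
  let D : Pool.Agent.W732.OS.LBData 𝔉 :=
    { Λ1 := Λ1, Λ2 := Λ2, y := y, i0 := i0, a0 := a0, lnd1 := h1, lnd2 := h2, hy1 := h3,
      hy2 := h4, ha := h5, n1 := h6, n2 := h7, n3 := h8 }
  have key := Pool.Agent.W732.OS.meagre_of_frame hI 𝔉 D
  refine key.mono ?_
  intro φ hφ
  have hle : OvershearGroup I ≤ Pool.Agent.W732.OS.gosE I := by
    apply Subgroup.closure_mono
    rintro ψ ⟨Θ', f, g, t, hΘ', hf, hg, hfg, hgg, hψ⟩
    exact Pool.Agent.W732.OS.isOS_of_curve hΘ' hf hg hfg hgg hψ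
  exact hle hφ

end Pool.Agent.Results.MP_4d3b38_an.OvershearMeagre
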